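import Pool.Agent.MP_856573_co.H74.Bas

/-! Three tokens do not separate the main tokens. -/

namespace Pool.Agent.MP_856573_co.H74

open Set

namespace ConP

variable {V : Type} [Fintype V] [DecidableEq V] {G : SimpleGraph V} {D : Finset V}
  {F : Finset (Finset V)}

/-- The edge `u v` has one face in `X` and one outside. -/
def Bo (F : Finset (Finset V)) (X : Set (Finset V)) (u v : V) : Prop :=
  u ≠ v ∧ ∃ f ∈ F, ∃ f' ∈ F, u ∈ f ∧ v ∈ f ∧ u ∈ f' ∧ v ∈ f' ∧ f ∈ X ∧ f' ∉ X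

theorem Bo.symm {X : Set (Finset V)} {u v : V} (h : Bo F X u v) : Bo F X v u :=
  let ⟨h0, f, hf, f', hf', a, b, c, d, e⟩ := h
  ⟨h0.symm, f, hf, f', hf', b, a, d, c, e⟩

theorem adj (T : Tri G D F) {f : Finset V} (hf : f ∈ F) {u v : V} (hu : u ∈ f) (hv : v ∈ f)
    (h : u ≠ v) : G.Adj u v := (T.face f hf).2.isClique hu hv h

theorem card3 (T : Tri G D F) {f : Finset V} (hf : f ∈ F) : f.card = 3 := (T.face f hf).2.card_eq

theorem two (T : Tri G D F) {f : Finset V} (hf : f ∈ F) {u v : V} (hu : u ∈ f) (hv : v ∈ f)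
    (h : u ≠ v) : (F.filter fun f => u ∈ f ∧ v ∈ f).card = 2 :=
  T.two u ((T.face f hf).1 hu) v ((T.face f hf).1 hv) (adj T hf hu hv h)

/-- An edge has only two faces. -/
theorem third (T : Tri G D F) {f f' g : Finset V} (hf : f ∈ F) (hf' : f' ∈ F) (hg : g ∈ F)
    {u v : V} (h : u ≠ v) (a : u ∈ f) (b : v ∈ f) (c : u ∈ f') (d : v ∈ f') (e : u ∈ g)
    (e' : v ∈ g) (hne : f ≠ f') : g = f ∨ g = f' := by
  by_contra hc
  push Not at hc
  have : 2 < (F.filter fun f => u ∈ f ∧ v ∈ f).card := Finset.two_lt_card_iff.2 ⟨f, f', g,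
    Finset.mem_filter.2 ⟨hf, a, b⟩, Finset.mem_filter.2 ⟨hf', c, d⟩,
    Finset.mem_filter.2 ⟨hg, e, e'⟩, hne, hc.1.symm, hc.2.symm⟩
  rw [two T hf a b h] at this
  exact lt_irrefl _ this

theorem eq3 {f : Finset V} (h : f.card = 3) {a b c : V} (ha : a ∈ f) (hb : b ∈ f) (hc : c ∈ f)
    (ab : a ≠ b) (ac : a ≠ c) (bc : b ≠ c) : f = {a, b, c} := by
  refine (Finset.eq_of_subset_of_card_le ?_ ?_).symm
  · intro x hx
    simp only [Finset.mem_insert, Finset.mem_singleton] at hx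
    rcases hx with rfl | rfl | rfl <;> assumption
  · rw [h, Finset.card_eq_three.2 ⟨a, b, c, ab, ac, bc, rfl⟩]

/-- No vertex has exactly one boundary edge. -/
theorem next (T : Tri G D F) {X : Set (Finset V)} {u v : V} (h : Bo F X u v) :
    ∃ w, w ≠ v ∧ Bo F X u w := by
  classical
  by_contra hc
  push Not at hc
  set A := F.filter fun f => f ∈ X ∧ u ∈ f with hA
  have e1 : ∑ w ∈ Finset.univ.erase u, (A.filter fun f => w ∈ f).card = 2 * A.card := by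
    refine (Finset.sum_card_bipartiteAbove_eq_sum_card_bipartiteBelow (s := A)
      (t := Finset.univ.erase u) (r := fun (f : Finset V) (w : V) => w ∈ f)).symm.trans ?_
    rw [mul_comm, ← smul_eq_mul, ← Finset.sum_const]
    refine Finset.sum_congr rfl fun f hf => ?_
    rw [hA, Finset.mem_filter] at hf
    have : Finset.bipartiteAbove (fun (f : Finset V) (w : V) => w ∈ f) (Finset.univ.erase u) f
        = f.erase u := by
      ext w
      simp [Finset.bipartiteAbove]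
    rw [this, Finset.card_erase_of_mem hf.2.2, card3 T hf.1]
  obtain ⟨huv, f, hf, f', hf', a, b, c, d, e, e'⟩ := h
  have e2 : (A.filter fun f => v ∈ f).card = 1 := by
    rw [Finset.card_eq_one]
    refine ⟨f, Finset.eq_singleton_iff_unique_mem.2 ⟨by simp [hA, hf, e, a, b], fun g hg => ?_⟩⟩
    simp only [hA, Finset.mem_filter] at hg
    rcases third T hf hf' hg.1.1 huv a b c d hg.1.2.2 hg.2 (fun z => e' (z ▸ e)) with z | z
    · exact z
    · exact absurd (z ▸ hg.1.2.1) e'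
  have e3 : ∀ w ∈ (Finset.univ.erase u).erase v, 2 ∣ (A.filter fun f => w ∈ f).card := by
    intro w hw
    simp only [Finset.mem_erase] at hw
    rcases (A.filter fun f => w ∈ f).eq_empty_or_nonempty with z | ⟨g, hg⟩
    · simp [z]
    · simp only [hA, Finset.mem_filter] at hg
      have : (A.filter fun f => w ∈ f) = F.filter fun f => u ∈ f ∧ w ∈ f := by
        ext g'
        simp only [hA, Finset.mem_filter]
        refine ⟨fun z => ⟨z.1.1, z.1.2.2, z.2⟩, fun z => ⟨⟨z.1, ?_, z.2.1⟩, z.2.2⟩⟩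
        by_contra hn
        exact hc w hw.1 ⟨hw.2.1.symm, g, hg.1.1, g', z.1, hg.1.2.2, hg.2, z.2.1, z.2.2,
          hg.1.2.1, hn⟩
      rw [this, two T hg.1.1 hg.1.2.2 hg.2 hw.2.1.symm]
  have e4 := Finset.dvd_sum e3
  rw [← Finset.add_sum_erase _ _ (a := v) (by simp [huv.symm]), e2] at e1
  omega

/-- Change the side of one face. -/
def fl (X : Set (Finset V)) (g : Finset V) : Set (Finset V) := {f | f ∈ X ↔ f ≠ g}

theorem mem_fl {X : Set (Finset V)} {g f : Finset V} (h : f ≠ g) : f ∈ fl X g ↔ f ∈ X := by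
  simp [fl, h]

theorem fl_out {X : Set (Finset V)} {g : Finset V} {u v : V} (h : Bo F (fl X g) u v)
    (hn : ¬ (u ∈ g ∧ v ∈ g)) : Bo F X u v := by
  obtain ⟨huv, f, hf, f', hf', a, b, c, d, e, e'⟩ := h
  rw [mem_fl fun z : f = g => hn ⟨z ▸ a, z ▸ b⟩] at e
  rw [mem_fl fun z : f' = g => hn ⟨z ▸ c, z ▸ d⟩] at e'
  exact ⟨huv, f, hf, f', hf', a, b, c, d, e, e'⟩

theorem fl_in (T : Tri G D F) {X : Set (Finset V)} {g : Finset V} (hg : g ∈ F) {u v : V}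
    (hu : u ∈ g) (hv : v ∈ g) (h : Bo F X u v) : ¬ Bo F (fl X g) u v := by
  obtain ⟨huv, f, hf, f', hf', a, b, c, d, e, e'⟩ := h
  rintro ⟨-, k, hk, k', hk', a', b', c', d', x, x'⟩
  have hne : f ≠ f' := fun z => e' (z ▸ e)
  rcases third T hf hf' hg huv a b c d hu hv hne with rfl | rfl <;>
    rcases third T hf hf' hk huv a b c d a' b' hne with rfl | rfl <;>
    rcases third T hf hf' hk' huv a b c d c' d' hne with rfl | rfl <;>
    simp_all [fl, hne.symm]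

/-- After changing the faces in `S` there is no boundary. -/
def Cl (F : Finset (Finset V)) (X : Set (Finset V)) (f1 f2 : Finset V) : Prop :=
  ∃ X', (∀ u v, ¬ Bo F X' u v) ∧ ∀ f, f ≠ f1 → f ≠ f2 → (f ∈ X' ↔ f ∈ X)

theorem one (T : Tri G D F) {X : Set (Finset V)} {g : Finset V} (hg : g ∈ F) (Z : Set V)
    (hZ : ∀ a ∈ Z, ∀ b ∈ Z, ∀ c ∈ Z, a ≠ b → a ≠ c → b ≠ c → False)
    (h : ∀ u v, Bo F X u v → (u ∈ g ∧ v ∈ g) ∨ (u ∈ Z ∧ v ∈ Z)) :
    ∃ X', (∀ u v, ¬ Bo F X' u v) ∧ ∀ f, f ≠ g → (f ∈ X' ↔ f ∈ X) := by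
  have h1 : ∀ u v, Bo F X u v → u ∈ g := fun u v hb => by
    by_contra hn
    obtain ⟨w, hw, hb'⟩ := next T hb
    have a := (h u v hb).resolve_left fun z => hn z.1
    have b := (h u w hb').resolve_left fun z => hn z.1
    exact hZ u a.1 v a.2 w b.2 hb.1 hb'.1 hw.symm
  by_cases h0 : ∀ u v, ¬ Bo F X u v
  · exact ⟨X, h0, fun _ _ => Iff.rfl⟩
  push Not at h0
  obtain ⟨u, v, hb⟩ := h0
  obtain ⟨w, hw, hb'⟩ := next T hb
  obtain ⟨w', hw', hb''⟩ := next T hb.symm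
  have e := eq3 (card3 T hg) (h1 _ _ hb) (h1 _ _ hb.symm) (h1 _ _ hb'.symm) hb.1 hb'.1 hw.symm
  have m : ∀ x ∈ g, x = u ∨ x = v ∨ x = w := fun x hx => by simpa [e] using hx
  obtain rfl : w' = w := by
    rcases m w' (h1 _ _ hb''.symm) with z | z | z
    exacts [absurd z hw', absurd z.symm hb''.1, z]
  refine ⟨fl X g, fun a b hab => ?_, fun f hf => mem_fl hf⟩
  by_cases hn : a ∈ g ∧ b ∈ g
  · refine fl_in T hg hn.1 hn.2 ?_ hab
    rcases m a hn.1 with rfl | rfl | rfl <;> rcases m b hn.2 with rfl | rfl | rfl <;>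
      first
      | exact absurd rfl hab.1
      | assumption
      | exact Bo.symm (by assumption)
  · have := fl_out hab hn
    exact hn ⟨h1 _ _ this, h1 _ _ this.symm⟩

theorem both (T : Tri G D F) {X : Set (Finset V)} {g g' : Finset V} (hg : g ∈ F) (hg' : g' ∈ F)
    (hne : g ≠ g') (h : ∀ u v, Bo F X u v → (u ∈ g ∧ v ∈ g) ∨ (u ∈ g' ∧ v ∈ g')) :
    Cl F X g g' := by
  obtain ⟨c, hc, hc'⟩ : ∃ c ∈ g, c ∉ g' := by
    by_contra hn
    push Not at hn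
    exact hne (Finset.eq_of_subset_of_card_le hn (by rw [card3 T hg, card3 T hg']))
  have hZ : ∀ a ∈ (g.erase c : Set V), ∀ b ∈ (g.erase c : Set V), ∀ d ∈ (g.erase c : Set V),
      a ≠ b → a ≠ d → b ≠ d → False := fun a ha b hb d hd x y z => by
    have : 2 < (g.erase c).card := Finset.two_lt_card_iff.2 ⟨a, b, d, ha, hb, hd, x, y, z⟩
    rw [Finset.card_erase_of_mem hc, card3 T hg] at this
    omega
  have er : ∀ {Y : Set (Finset V)}, (∀ v, ¬ Bo F Y c v) → ∀ u v, Bo F Y u v → u ∈ g → v ∈ g →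
      u ∈ (g.erase c : Set V) ∧ v ∈ (g.erase c : Set V) := fun hY u v hb hu hv =>
    ⟨Finset.mem_erase.2 ⟨fun z => hY v (z ▸ hb), hu⟩,
      Finset.mem_erase.2 ⟨fun z => hY u (z ▸ hb.symm), hv⟩⟩
  by_cases h0 : ∀ v, ¬ Bo F X c v
  · obtain ⟨X', a, b⟩ := one T hg' _ hZ fun u v hb =>
      (h u v hb).symm.imp_right fun z => er h0 u v hb z.1 z.2
    exact ⟨X', a, fun f _ hf => b f hf⟩
  push Not at h0
  obtain ⟨a, ha⟩ := h0
  obtain ⟨b, hb, hb'⟩ := next T ha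
  have ag := ((h _ _ ha).resolve_right fun z => hc' z.1).2
  have bg := ((h _ _ hb').resolve_right fun z => hc' z.1).2
  have e := eq3 (card3 T hg) hc ag bg ha.1 hb'.1 hb.symm
  have h0 : ∀ v, ¬ Bo F (fl X g) c v := fun v hv => by
    by_cases hvg : v ∈ g
    · refine fl_in T hg hc hvg ?_ hv
      have : v = c ∨ v = a ∨ v = b := by simpa [e] using hvg
      rcases this with rfl | rfl | rfl
      exacts [absurd rfl hv.1, ha, hb']
    · rcases h _ _ (fl_out hv fun z => hvg z.2) with z | z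
      exacts [hvg z.2, hc' z.1]
  obtain ⟨X', x, y⟩ := one T hg' _ hZ (X := fl X g) fun u v hb => by
    by_cases hn : u ∈ g ∧ v ∈ g
    · exact Or.inr (er h0 u v hb hn.1 hn.2)
    · exact Or.inl ((h u v (fl_out hb hn)).resolve_left hn)
  exact ⟨X', x, fun f h1 h2 => (y f h2).trans (mem_fl h1)⟩

theorem four {N : Set (Finset V)} (h : N.ncard ≤ 3) {a b c d : Finset V} (ha : a ∈ N) (hb : b ∈ N)
    (hc : c ∈ N) (hd : d ∈ N) (ab : a ≠ b) (ac : a ≠ c) (ad : a ≠ d) (bc : b ≠ c) (bd : b ≠ d)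
    (cd : c ≠ d) : False := by
  have : 3 < N.ncard := (Set.three_lt_ncard (toFinite N)).2 ⟨a, ha, b, hb, c, hc, d, hd,
    ab, ac, ad, bc, bd, cd⟩
  omega

/-- The faces that belong to a set of tokens. -/
def Fc (K : Set (Finset V)) : Set (Finset V) := {f | f ∈ K ∨ ∃ x ∈ f, {x} ∈ K}

theorem big (tb : StmtTB) (T : Tri G D F) {Hb : Finset V} {K N : Set (Finset V)}
    (hK : K ⊆ Mn D F Hb) (hne : K.Nonempty) (hd : Disjoint K N) {f1 f2 : Finset V}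
    (g1 : f1 ∈ N ∨ Disjoint f1 Hb) (g2 : f2 ∈ N ∨ Disjoint f2 Hb) :
    ∃ f ∈ F, f ∈ Fc K ∧ f ≠ f1 ∧ f ≠ f2 := by
  obtain ⟨x, hx⟩ := hne
  rcases hK hx with ⟨v, hv, -, rfl⟩ | ⟨hF, hh⟩
  · obtain ⟨a, b, c, ha, hb, hc, ab, ac, bc⟩ := Finset.two_lt_card_iff.1 (tb.deg V G D F T v hv).1
    rw [Finset.mem_filter] at ha hb hc
    by_contra hn
    push Not at hn
    have a' := hn a ha.1 (Or.inr ⟨v, ha.2, hx⟩)
    have b' := hn b hb.1 (Or.inr ⟨v, hb.2, hx⟩)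
    have c' := hn c hc.1 (Or.inr ⟨v, hc.2, hx⟩)
    by_cases x1 : a = f1
    · exact bc ((b' fun z => ab (x1.trans z.symm)).trans (c' fun z => ac (x1.trans z.symm)).symm)
    · by_cases x2 : b = f1
      · exact ac ((a' x1).trans (c' fun z => bc (x2.trans z.symm)).symm)
      · exact ab ((a' x1).trans (b' x2).symm)
  · refine ⟨x, hF, Or.inl hx, ?_, ?_⟩ <;> rintro rfl
    · exact g1.elim (disjoint_left.1 hd hx) hh
    · exact g2.elim (disjoint_left.1 hd hx) hh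

theorem sing_ne (T : Tri G D F) {f : Finset V} (hf : f ∈ F) (u : V) : f ≠ {u} := fun z => by
  have := card3 T hf
  rw [z, Finset.card_singleton] at this
  omega

theorem ssub (T : Tri G D F) {f : Finset V} (hf : f ∈ F) {u : V} (hu : u ∈ f) : {u} ⊂ f :=
  Finset.ssubset_iff_subset_ne.2 ⟨Finset.singleton_subset_iff.2 hu, (sing_ne T hf u).symm⟩

section main

variable {Hb : Finset V} {K N : Set (Finset V)} (T : Tri G D F)
  (hcl : ∀ x ∈ K, ∀ y ∈ Mn D F Hb, Xa G Hb x y → y ∈ K ∪ N)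

include T hcl in
theorem vert {f : Finset V} (hf : f ∈ F) (hK : f ∈ Fc K) {u : V} (hu : u ∈ f) (hh : u ∉ Hb) :
    {u} ∈ K ∪ N := by
  have hm : ({u} : Finset V) ∈ Mn D F Hb := Or.inl ⟨u, (T.face f hf).1 hu, hh, rfl⟩
  rcases hK with hK | ⟨x, hx, hK⟩
  · exact hcl f hK _ hm (Or.inr (Or.inr (Or.inl (ssub T hf hu))))
  · by_cases e : x = u
    · exact Or.inl (e ▸ hK)
    · exact hcl _ hK _ hm (Or.inl ⟨x, u, adj T hf hx hu e, rfl, rfl⟩)

include T hcl in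
theorem fac {f : Finset V} (hf : f ∈ F) (hK : f ∈ Fc K) (hh : ¬ Disjoint f Hb) : f ∈ K ∪ N := by
  rcases hK with hK | ⟨x, hx, hK⟩
  · exact Or.inl hK
  · exact hcl _ hK _ (Or.inr ⟨hf, hh⟩) (Or.inr (Or.inl (ssub T hf hx)))

include T hcl in
theorem bo_vert {u v : V} (h : Bo F (Fc K) u v) (hh : u ∉ Hb) : {u} ∈ N := by
  obtain ⟨-, f, hf, f', -, a, -, c, -, e, e'⟩ := h
  exact (vert T hcl hf e a hh).resolve_left fun z => e' (Or.inr ⟨u, c, z⟩)

include T hcl in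
theorem bo_face {u v : V} (h : Bo F (Fc K) u v) (hh : u ∈ Hb) :
    ∃ g ∈ F, g ∈ N ∧ u ∈ g ∧ v ∈ g := by
  obtain ⟨huv, f, hf, f', hf', a, b, c, d, e, e'⟩ := h
  rcases fac T hcl hf e (Finset.not_disjoint_iff.2 ⟨u, a, hh⟩) with z | z
  · refine ⟨f', hf', (hcl f z f' (Or.inr ⟨hf', Finset.not_disjoint_iff.2 ⟨u, c, hh⟩⟩)
      (Or.inr (Or.inr (Or.inr ⟨?_, Finset.not_disjoint_iff.2
        ⟨u, Finset.mem_inter.2 ⟨a, c⟩, hh⟩⟩)))).resolve_left fun z => e' (Or.inl z), c, d⟩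
    have h1 : 1 < (f ∩ f').card :=
      Finset.one_lt_card.2 ⟨u, Finset.mem_inter.2 ⟨a, c⟩, v, Finset.mem_inter.2 ⟨b, d⟩, huv⟩
    have h2 : (f ∩ f').card < f.card := Finset.card_lt_card (Finset.ssubset_iff_subset_ne.2
      ⟨Finset.inter_subset_left, fun y => e' ((Finset.eq_of_subset_of_card_le
        (Finset.inter_eq_left.1 y) (by rw [card3 T hf, card3 T hf'])) ▸ e)⟩)
    rw [card3 T hf] at h2
    omega
  · exact ⟨f, hf, z, a, b⟩

include T hcl in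
theorem bo_or {u v : V} (h : Bo F (Fc K) u v) :
    (∃ g ∈ F, g ∈ N ∧ u ∈ g ∧ v ∈ g) ∨ (u ∉ Hb ∧ v ∉ Hb ∧ {u} ∈ N ∧ {v} ∈ N) := by
  by_cases hu : u ∈ Hb
  · exact Or.inl (bo_face T hcl h hu)
  · by_cases hv : v ∈ Hb
    · obtain ⟨g, a, b, c, d⟩ := bo_face T hcl h.symm hv
      exact Or.inl ⟨g, a, b, d, c⟩
    · exact Or.inr ⟨hu, hv, bo_vert T hcl h hu, bo_vert T hcl h.symm hv⟩

include T in
theorem tri3 {X : Set (Finset V)} {u v w : V} (h1 : Bo F X u v) (h2 : Bo F X u w)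
    (h3 : Bo F X v w) : T3 G D {u, v, w} := by
  obtain ⟨x1, f, hf, -, -, a, b, -⟩ := h1
  obtain ⟨x2, g, hg, -, -, c, d, -⟩ := h2
  obtain ⟨x3, k, hk, -, -, e, e', -⟩ := h3
  refine ⟨fun x hx => ?_, SimpleGraph.is3Clique_triple_iff.2
    ⟨adj T hf a b x1, adj T hg c d x2, adj T hk e e' x3⟩⟩
  simp only [Finset.mem_insert, Finset.mem_singleton] at hx
  rcases hx with rfl | rfl | rfl
  exacts [(T.face f hf).1 a, (T.face f hf).1 b, (T.face g hg).1 d]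

include T hcl in
theorem close (h1 : ∀ T, T3 G D T → ¬ T ⊆ Hb) (h2 : ∀ T, T3 G D T → Disjoint T Hb → T ∈ F)
    (hN : N.ncard ≤ 3) : ∃ f1 f2, (f1 ∈ N ∨ Disjoint f1 Hb) ∧ (f2 ∈ N ∨ Disjoint f2 Hb) ∧
      Cl F (Fc K) f1 f2 := by
  by_cases h0 : ∀ u v, ¬ Bo F (Fc K) u v
  · exact ⟨∅, ∅, Or.inr (by simp), Or.inr (by simp), _, h0, fun _ _ _ => Iff.rfl⟩
  push Not at h0
  obtain ⟨u, v, hb⟩ := h0
  obtain ⟨w, hw, hb'⟩ := next T hb
  obtain ⟨w', hw', hb''⟩ := next T hb.symm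
  have sn : ∀ {a b : V}, a ≠ b → ({a} : Finset V) ≠ {b} := fun h z => h (Finset.singleton_inj.1 z)
  by_cases c1 : ∀ g ∈ F, g ∉ N
  · have k : ∀ a b, Bo F (Fc K) a b → a ∉ Hb ∧ {a} ∈ N := fun a b hab => by
      rcases bo_or T hcl hab with ⟨g, x, y, -⟩ | z
      exacts [absurd y (c1 g x), ⟨z.1, z.2.2.1⟩]
    have m : ∀ a b, Bo F (Fc K) a b → a = u ∨ a = v ∨ a = w := fun a b hab => by
      by_contra hn
      push Not at hn
      exact four hN (k _ _ hab).2 (k _ _ hb).2 (k _ _ hb.symm).2 (k _ _ hb'.symm).2 (sn hn.1)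
        (sn hn.2.1) (sn hn.2.2) (sn hb.1) (sn hb'.1) (sn hw.symm)
    obtain rfl : w' = w := by
      rcases m _ _ hb''.symm with z | z | z
      exacts [absurd z hw', absurd z.symm hb''.1, z]
    have hd : Disjoint ({u, v, w'} : Finset V) Hb := by
      simp [(k _ _ hb).1, (k _ _ hb.symm).1, (k _ _ hb'.symm).1]
    obtain ⟨X', x, y⟩ := one T (h2 _ (tri3 T hb hb' hb'') hd) ∅ (fun _ h => h.elim)
      (X := Fc K) fun a b hab => Or.inl ⟨by simpa using m _ _ hab, by simpa using m _ _ hab.symm⟩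
    exact ⟨_, _, Or.inr hd, Or.inr hd, X', x, fun f hf _ => y f hf⟩
  push Not at c1
  obtain ⟨f1, hf1, n1⟩ := c1
  by_cases c2 : ∀ g ∈ F, g ∈ N → g = f1
  · obtain ⟨X', x, y⟩ := one T hf1 {z | ({z} : Finset V) ∈ N} (fun a ha b hb c hc x y z =>
      four hN n1 ha hb hc (sing_ne T hf1 a) (sing_ne T hf1 b) (sing_ne T hf1 c) (sn x) (sn y)
        (sn z)) (X := Fc K) fun a b hab => by
      rcases bo_or T hcl hab with ⟨g, x, y, z⟩ | z
      exacts [Or.inl (c2 g x y ▸ z), Or.inr z.2.2]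
    exact ⟨_, _, Or.inl n1, Or.inl n1, X', x, fun f hf _ => y f hf⟩
  push Not at c2
  obtain ⟨f2, hf2, n2, e12⟩ := c2
  by_cases c3 : ∀ g ∈ F, g ∈ N → g = f1 ∨ g = f2
  · refine ⟨f1, f2, Or.inl n1, Or.inl n2, both T hf1 hf2 e12.symm fun a b hab => ?_⟩
    rcases bo_or T hcl hab with ⟨g, x, y, z⟩ | z
    · exact (c3 g x y).imp (fun e : g = f1 => e ▸ z) fun e : g = f2 => e ▸ z
    · exact (four hN n1 n2 z.2.2.1 z.2.2.2 e12.symm (sing_ne T hf1 a) (sing_ne T hf1 b)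
        (sing_ne T hf2 a) (sing_ne T hf2 b) (sn hab.1)).elim
  push Not at c3
  obtain ⟨f3, hf3, n3, e13, e23⟩ := c3
  have k : ∀ a b, Bo F (Fc K) a b → a ∈ Hb := fun a b hab => by
    by_contra hn
    exact four hN n1 n2 n3 (bo_vert T hcl hab hn) e12.symm e13.symm (sing_ne T hf1 a) e23.symm
      (sing_ne T hf2 a) (sing_ne T hf3 a)
  have hs : ∀ {a b c : V}, a ∈ Hb → b ∈ Hb → c ∈ Hb → ({a, b, c} : Finset V) ⊆ Hb :=
    fun ha hb hc x hx => by
      simp only [Finset.mem_insert, Finset.mem_singleton] at hx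
      rcases hx with rfl | rfl | rfl <;> assumption
  have t : ∀ g ∈ F, ∀ a ∈ g, ∀ b ∈ g, ∀ c ∈ g, a ∈ Hb → b ∈ Hb → c ∈ Hb → a ≠ b → a ≠ c → b ≠ c →
      False := fun g hg a ha b hb c hc x y z ab ac bc =>
    h1 g (T.face g hg) (eq3 (card3 T hg) ha hb hc ab ac bc ▸ hs x y z)
  have hu := k _ _ hb
  have hv := k _ _ hb.symm
  have hw1 := k _ _ hb'.symm
  have hw2 := k _ _ hb''.symm
  by_cases e : w' = w
  · exact absurd (hs hu hv hw1) (h1 _ (tri3 T hb hb' (e ▸ hb'')))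
  obtain ⟨z, hz, hb3⟩ := next T hb'.symm
  have hz1 := k _ _ hb3.symm
  obtain ⟨g1, a1, b1, c1, d1⟩ := bo_face T hcl hb hu
  obtain ⟨g2, a2, b2, c2, d2⟩ := bo_face T hcl hb' hu
  obtain ⟨g3, a3, b3, c3, d3⟩ := bo_face T hcl hb'' hv
  obtain ⟨g4, a4, b4, c4, d4⟩ := bo_face T hcl hb3 hw1
  refine (four hN b1 b2 b3 b4 ?_ ?_ ?_ ?_ ?_ ?_).elim <;> rintro rfl
  · exact t _ a1 u c1 v d1 w d2 hu hv hw1 hb.1 hb'.1 hw.symm
  · exact t _ a1 u c1 v d1 w' d3 hu hv hw2 hb.1 hw'.symm hb''.1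
  · exact t _ a1 u c1 v d1 w c4 hu hv hw1 hb.1 hb'.1 hw.symm
  · exact t _ a2 u c2 v c3 w d2 hu hv hw1 hb.1 hb'.1 hw.symm
  · exact t _ a2 u c2 w d2 z d4 hu hw1 hz1 hb'.1 hz.symm hb3.1
  · exact t _ a3 v c3 w' d3 w c4 hv hw2 hw1 hb''.1 hw.symm e

end main

end ConP

open ConP in
theorem con : StmtCON := by
  intro tb V _ _ G D F Hb K N T h1 h2 hK hne hN hd hcl
  by_contra hn
  obtain ⟨y, hy, hy'⟩ := not_subset.1 hn
  obtain ⟨f1, f2, g1, g2, X', x1, x2⟩ := close T hcl h1 h2 hN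
  obtain ⟨f, hf, a, b, c⟩ := big tb T hK hne hd g1 g2
  obtain ⟨f', hf', a', b', c'⟩ := big tb T (K := Mn D F Hb \ (K ∪ N)) (N := N) sdiff_subset
    ⟨y, hy, hy'⟩ (disjoint_left.2 fun z hz hz' => hz.2 (Or.inr hz')) g1 g2
  have hX : f' ∈ X' := tb.dc V G D F T X' (fun g hg g' hg' hgF ⟨u, v, huv, p, q, r, s⟩ => by
    by_contra hc
    exact x1 u v ⟨huv, g, hgF, g', hg', p, q, r, s, hg, hc⟩) f hf f' hf' ((x2 f b c).2 a)
  have hK' := (x2 f' b' c').1 hX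
  rcases a' with a' | ⟨x, hx, a'⟩
  · rcases a'.1 with ⟨v, -, -, e⟩ | ⟨-, e⟩
    · exact sing_ne T hf' v e
    · exact a'.2 (fac T hcl hf' hK' e)
  · rcases a'.1 with ⟨v, -, hv, e⟩ | ⟨e, -⟩
    · exact a'.2 (vert T hcl hf' hK' hx (Finset.singleton_inj.1 e ▸ hv))
    · exact sing_ne T e x rfl

end Pool.Agent.MP_856573_co.H74
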